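import Mathlib

set_option autoImplicit false

namespace Pool.Agent.H365Z.MY

open Set

variable {E : Type*} [NormedAddCommGroup E] [NormedSpace ℝ E]

/-- the zigzag function of period two -/
noncomputable def tri (v : ℝ) : ℝ := Real.arccos (Real.cos (Real.pi * v)) / Real.pi

lemma tri_cont : Continuous tri := by
  unfold tri
  exact (Real.continuous_arccos.comp (Real.continuous_cos.comp
    (continuous_const.mul continuous_id))).div_const _

lemma tri_mem (v : ℝ) : tri v ∈ Icc (0 : ℝ) 1 := by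
  unfold tri
  refine ⟨div_nonneg (Real.arccos_nonneg _) Real.pi_pos.le, ?_⟩
  rw [div_le_one Real.pi_pos]
  exact Real.arccos_le_pi _

lemma tri_add (v : ℝ) (k : ℕ) : tri (v + 2 * k) = tri v := by
  unfold tri
  have : Real.pi * (v + 2 * k) = Real.pi * v + k * (2 * Real.pi) := by ring
  rw [this, Real.cos_add_nat_mul_two_pi]

lemma tri_left {v : ℝ} (h : v ∈ Icc (0 : ℝ) 1) : tri v = v := by
  unfold tri
  rw [Real.arccos_cos (mul_nonneg Real.pi_pos.le h.1) (by nlinarith [h.2, Real.pi_pos])]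
  field_simp

lemma tri_right {v : ℝ} (h : v ∈ Icc (1 : ℝ) 2) : tri v = 2 - v := by
  have h1 : tri v = tri (2 - v) := by
    unfold tri
    have : Real.pi * (2 - v) = 2 * Real.pi - Real.pi * v := by ring
    rw [this, Real.cos_two_pi_sub]
  rw [h1, tri_left ⟨by linarith [h.2], by linarith [h.1]⟩]

lemma tri_int (g : ℝ → E) (hg : Continuous g) (h0 : ∫ s in (0 : ℝ)..1, g s = 0) :
    ∫ v in (0 : ℝ)..2, g (tri v) = 0 := by
  have hc : Continuous fun v => g (tri v) := hg.comp tri_cont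
  rw [← intervalIntegral.integral_add_adjacent_intervals (b := 1)
    (hc.intervalIntegrable _ _) (hc.intervalIntegrable _ _)]
  have e1 : ∫ v in (0 : ℝ)..1, g (tri v) = ∫ v in (0 : ℝ)..1, g v := by
    refine intervalIntegral.integral_congr fun v hv => ?_
    rw [uIcc_of_le zero_le_one] at hv
    simp only [tri_left hv]
  have e2 : ∫ v in (1 : ℝ)..2, g (tri v) = ∫ v in (1 : ℝ)..2, g (2 - v) := by
    refine intervalIntegral.integral_congr fun v hv => ?_
    rw [uIcc_of_le one_le_two] at hv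
    simp only [tri_right hv]
  rw [e1, e2, intervalIntegral.integral_comp_sub_left g 2, h0]
  norm_num [h0]

lemma period_int (g : ℝ → E) (hg : Continuous g) (h0 : ∫ s in (0 : ℝ)..1, g s = 0)
    (a p : ℝ) (hp : 0 < p) (k : ℕ) :
    ∫ τ in (a + k * p)..(a + (k + 1) * p), g (tri (2 * (τ - a) / p)) = 0 := by
  have e : (fun τ => g (tri (2 * (τ - a) / p))) =
      fun τ => (fun v => g (tri v)) ((2 / p) * τ + (-(2 * a / p) - 2 * k)) := by
    funext τ
    have : 2 * (τ - a) / p = ((2 / p) * τ + (-(2 * a / p) - 2 * k)) + 2 * k := by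
      field_simp; ring
    rw [this, tri_add]
  have hp' : (2 / p) ≠ 0 := by positivity
  rw [e, intervalIntegral.integral_comp_mul_add (fun v => g (tri v)) hp']
  have e1 : 2 / p * (a + k * p) + (-(2 * a / p) - 2 * k) = 0 := by field_simp; ring
  have e2 : 2 / p * (a + (k + 1) * p) + (-(2 * a / p) - 2 * k) = 2 := by field_simp; ring
  rw [e1, e2, tri_int g hg h0, smul_zero]

/-- averaging lemma -/
lemma avg (G : ℝ × ℝ → E) (hG : Continuous G) {a b : ℝ} (hab : a < b)
    (h0 : ∀ t ∈ Icc a b, ∫ s in (0 : ℝ)..1, G (t, s) = 0) {θ : ℝ} (hθ : 0 < θ) :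
    ∃ σ : ℝ → ℝ, Continuous σ ∧ (∀ t, σ t ∈ Icc (0 : ℝ) 1) ∧ σ a = 0 ∧ σ b = 0 ∧
      ∀ t ∈ Icc a b, ‖∫ τ in a..t, G (τ, σ τ)‖ ≤ θ := by
  have hK : IsCompact (Icc a b ×ˢ Icc (0 : ℝ) 1) := isCompact_Icc.prod isCompact_Icc
  obtain ⟨C, hC⟩ := hK.exists_bound_of_continuousOn hG.continuousOn
  have hC0 : 0 ≤ C := (norm_nonneg _).trans
    (hC (a, 0) ⟨⟨le_rfl, hab.le⟩, ⟨le_rfl, zero_le_one⟩⟩)
  have hl : 0 < b - a := sub_pos.2 hab
  have hu := hK.uniformContinuousOn_of_continuous hG.continuousOn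
  rw [Metric.uniformContinuousOn_iff_le] at hu
  obtain ⟨δ, hδ, hu⟩ := hu (θ / 2 / (b - a)) (by positivity)
  obtain ⟨m, hm⟩ := exists_nat_gt (max ((b - a) / δ) ((b - a) * C / (θ / 2)))
  have hm1 : (b - a) / δ < m := (le_max_left _ _).trans_lt hm
  have hm2 : (b - a) * C / (θ / 2) < m := (le_max_right _ _).trans_lt hm
  have hm0 : (0 : ℝ) < m := lt_trans (by positivity) hm1
  set p := (b - a) / m with hp
  have hp0 : 0 < p := by positivity
  have hmp : m * p = b - a := by rw [hp]; field_simp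
  have hpδ : p ≤ δ := by
    rw [hp, div_le_iff₀ hm0]
    rw [div_lt_iff₀ hδ] at hm1
    linarith
  have hpC : C * p ≤ θ / 2 := by
    rw [div_lt_iff₀ (by positivity)] at hm2
    rw [hp, ← mul_div_assoc, div_le_iff₀ hm0]
    linarith
  set σ : ℝ → ℝ := fun τ => tri (2 * (τ - a) / p) with hσ
  have hσc : Continuous σ := tri_cont.comp (by fun_prop)
  have hh : Continuous fun τ => G (τ, σ τ) := hG.comp (continuous_id.prodMk hσc)
  have step : ∀ k : ℕ, (k : ℝ) + 1 ≤ m →
      ‖∫ τ in (a + k * p)..(a + (k + 1) * p), G (τ, σ τ)‖ ≤ θ / 2 / (b - a) * p := by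
    intro k hk
    have hk0 : (0 : ℝ) ≤ k := Nat.cast_nonneg k
    have c1 : a ≤ a + k * p := by nlinarith
    have c2 : a + (k + 1) * p ≤ b := by nlinarith
    have c3 : a + k * p ≤ a + (k + 1) * p := by nlinarith
    have hc : Continuous fun s => G (a + k * p, s) := hG.comp (by fun_prop)
    have z := period_int (fun s => G (a + k * p, s)) hc (h0 _ ⟨c1, c3.trans c2⟩) a p hp0 k
    have hc2 : Continuous fun τ => G (a + k * p, σ τ) := hc.comp hσc
    have e : ∫ τ in (a + k * p)..(a + (k + 1) * p), G (τ, σ τ) =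
        ∫ τ in (a + k * p)..(a + (k + 1) * p), (G (τ, σ τ) - G (a + k * p, σ τ)) := by
      rw [intervalIntegral.integral_sub (hh.intervalIntegrable _ _) (hc2.intervalIntegrable _ _)]
      rw [show ∫ τ in (a + k * p)..(a + (k + 1) * p), G (a + k * p, σ τ) = 0 from z, sub_zero]
    rw [e]
    have := intervalIntegral.norm_integral_le_of_norm_le_const
      (a := a + k * p) (b := a + (k + 1) * p) (C := θ / 2 / (b - a))
      (f := fun τ => G (τ, σ τ) - G (a + k * p, σ τ)) (by
        intro τ hτ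
        rw [uIoc_of_le c3] at hτ
        rw [← dist_eq_norm]
        refine hu (τ, σ τ) ⟨⟨c1.trans hτ.1.le, hτ.2.trans c2⟩, tri_mem _⟩ (a + k * p, σ τ)
          ⟨⟨c1, c3.trans c2⟩, tri_mem _⟩ ?_
        rw [Prod.dist_eq, dist_self, Real.dist_eq]
        refine max_le ?_ hδ.le
        rw [abs_of_nonneg (by linarith [hτ.1])]
        linarith [hτ.2])
    rwa [show a + (k + 1) * p - (a + k * p) = p by ring, abs_of_pos hp0] at this
  have ind : ∀ k : ℕ, (k : ℝ) ≤ m →
      ‖∫ τ in a..(a + k * p), G (τ, σ τ)‖ ≤ θ / 2 / (b - a) * (k * p) := by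
    intro k
    induction k with
    | zero => intro _; simp
    | succ k ih =>
      intro hk
      push_cast at hk ⊢
      rw [← intervalIntegral.integral_add_adjacent_intervals (b := a + k * p)
        (hh.intervalIntegrable _ _) (hh.intervalIntegrable _ _)]
      refine (norm_add_le _ _).trans ?_
      have h1 := ih (by linarith)
      have h2 := step k hk
      linarith [show θ / 2 / (b - a) * ((k + 1) * p) =
        θ / 2 / (b - a) * (k * p) + θ / 2 / (b - a) * p by ring]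
  refine ⟨σ, hσc, fun t => tri_mem _, ?_, ?_, ?_⟩
  · simp only [hσ, sub_self, mul_zero, zero_div]
    exact tri_left ⟨le_rfl, zero_le_one⟩
  · have : 2 * (b - a) / p = 0 + 2 * m := by rw [← hmp]; field_simp; ring
    simp only [hσ]
    rw [this, tri_add]
    exact tri_left ⟨le_rfl, zero_le_one⟩
  · intro t ht
    set k := ⌊(t - a) / p⌋₊ with hk
    have hta : 0 ≤ (t - a) / p := div_nonneg (by linarith [ht.1]) hp0.le
    have k1 : (k : ℝ) ≤ (t - a) / p := Nat.floor_le hta
    have k2 : (t - a) / p < k + 1 := Nat.lt_floor_add_one _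
    rw [le_div_iff₀ hp0] at k1
    rw [div_lt_iff₀ hp0] at k2
    have hk0 : (0 : ℝ) ≤ k := Nat.cast_nonneg k
    have k3 : (k : ℝ) ≤ m := by
      have : k * p ≤ m * p := by linarith [ht.2]
      exact le_of_mul_le_mul_right this hp0
    rw [← intervalIntegral.integral_add_adjacent_intervals (b := a + k * p)
      (hh.intervalIntegrable _ _) (hh.intervalIntegrable _ _)]
    refine (norm_add_le _ _).trans ?_
    have h1 := ind k k3
    have h2 := intervalIntegral.norm_integral_le_of_norm_le_const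
      (a := a + k * p) (b := t) (C := C) (f := fun τ => G (τ, σ τ)) (by
        intro τ hτ
        rw [uIoc_of_le (by linarith)] at hτ
        exact hC (τ, σ τ) ⟨⟨by nlinarith [hτ.1], hτ.2.trans ht.2⟩, tri_mem _⟩)
    rw [abs_of_nonneg (by linarith)] at h2
    have h3 : θ / 2 / (b - a) * (k * p) ≤ θ / 2 := by
      rw [div_mul_eq_mul_div, div_le_iff₀ hl]
      exact mul_le_mul_of_nonneg_left (by linarith [ht.2]) (by positivity)
    have h4 : C * (t - (a + k * p)) ≤ C * p := mul_le_mul_of_nonneg_left (by linarith) hC0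
    linarith

omit [NormedSpace ℝ E] in
/-- pasting lemma -/
lemma paste (P : ℕ → ℝ → ℝ → ℝ → ℝ → (ℝ → E) → Prop) (t₀ : ℝ)
    (h : ∀ n a ρ, t₀ ≤ a → 0 < ρ → ∃ b ρ', ∃ w : ℝ → E, a + 1 ≤ b ∧ 0 < ρ' ∧
      ContinuousOn w (Icc a b) ∧ w a = 0 ∧ w b = 0 ∧ P n a ρ b ρ' w) :
    ∃ (a ρ : ℕ → ℝ) (ω : ℝ → E), Continuous ω ∧ a 0 = t₀ ∧ ρ 0 = 1 ∧
      ∀ n, a n + 1 ≤ a (n + 1) ∧ ∃ w : ℝ → E, (∀ t ∈ Icc (a n) (a (n + 1)), ω t = w t) ∧
        P n (a n) (ρ n) (a (n + 1)) (ρ (n + 1)) w := by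
  choose! B R W hB hR hW h0 h1 hP using h
  let s : ℕ → ℝ × ℝ := fun n => Nat.rec (t₀, 1) (fun n q => (B n q.1 q.2, R n q.1 q.2)) n
  have s0 : s 0 = (t₀, 1) := rfl
  have s1 : ∀ n, s (n + 1) = (B n (s n).1 (s n).2, R n (s n).1 (s n).2) := fun n => rfl
  have ok : ∀ n, t₀ ≤ (s n).1 ∧ 0 < (s n).2 := by
    intro n
    induction n with
    | zero => exact ⟨le_rfl, one_pos⟩
    | succ n ih =>
      rw [s1]
      exact ⟨by linarith [hB n _ _ ih.1 ih.2, ih.1], hR n _ _ ih.1 ih.2⟩
  set a : ℕ → ℝ := fun n => (s n).1 with ha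
  have astep : ∀ n, a n + 1 ≤ a (n + 1) := fun n => hB n _ _ (ok n).1 (ok n).2
  have ale : ∀ n, a n ≤ a (n + 1) := fun n => by linarith [astep n]
  have amono : Monotone a := monotone_nat_of_le_succ ale
  have alin : ∀ n : ℕ, t₀ + n ≤ a n := by
    intro n
    induction n with
    | zero => simp [ha, s0]
    | succ n ih => push_cast; linarith [astep n]
  let w : ℕ → ℝ → E := fun n => W n (s n).1 (s n).2
  have wc : ∀ n, ContinuousOn (w n) (Icc (a n) (a (n + 1))) := fun n => hW n _ _ (ok n).1 (ok n).2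
  have w0 : ∀ n, w n (a n) = 0 := fun n => h0 n _ _ (ok n).1 (ok n).2
  have w1 : ∀ n, w n (a (n + 1)) = 0 := fun n => h1 n _ _ (ok n).1 (ok n).2
  let u : ℕ → ℝ → E := fun n t => w n (max (a n) (min t (a (n + 1))))
  have uc : ∀ n, Continuous (u n) := fun n =>
    (wc n).comp_continuous (by fun_prop) fun t =>
      ⟨le_max_left _ _, max_le (ale n) (min_le_right _ _)⟩
  have ul : ∀ n t, t ≤ a n → u n t = 0 := by
    intro n t ht
    simp only [u]
    rw [max_eq_left ((min_le_left _ _).trans ht), w0]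
  have ur : ∀ n t, a (n + 1) ≤ t → u n t = 0 := by
    intro n t ht
    simp only [u]
    rw [min_eq_right ht, max_eq_right (ale n), w1]
  have lf : LocallyFinite fun n => Function.support (u n) := by
    intro t
    refine ⟨Iio (t + 1), Iio_mem_nhds (by linarith), ?_⟩
    obtain ⟨N, hN⟩ := exists_nat_gt (t + 1 - t₀)
    refine (Set.finite_lt_nat N).subset ?_
    rintro n ⟨τ, h1, h2⟩
    by_contra hn
    simp only [mem_ofPred_eq, not_lt] at hn
    apply h1
    apply ul
    have : (N : ℝ) ≤ n := by exact_mod_cast hn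
    have := alin n
    have h2' : τ < t + 1 := h2
    linarith
  refine ⟨a, fun n => (s n).2, fun t => ∑ᶠ n, u n t, continuous_finsum uc lf, rfl, rfl,
    fun n => ⟨astep n, w n, fun t ht => ?_, hP n _ _ (ok n).1 (ok n).2⟩⟩
  show ∑ᶠ k, u k t = w n t
  rw [finsum_eq_single _ n]
  · simp only [u]
    rw [min_eq_left ht.2, max_eq_right ht.1]
  · intro k hk
    rcases lt_or_gt_of_ne hk with h | h
    · exact ur k t ((amono h).trans ht.1)
    · exact ul k t (ht.2.trans (amono h))

end Pool.Agent.H365Z.MY
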