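import Mathlib

/-!
Definitions for MP_1775bc_an (nonuniform nonautonomous Markus-Yamabe conjecture).
-/

set_option autoImplicit false

namespace Pool.Agent.H365Z.MY

open Set

variable {E : Type*} [NormedAddCommGroup E] [NormedSpace ℝ E]

/-- `T` is the evolution operator of `x' = A(t) x` on `[0, ∞)`: `T(s,s) = I` and
`∂_t T(t,s) = A(t) T(t,s)` for all `t, s ≥ 0`. -/
def IsEvolution (A : ℝ → E →L[ℝ] E) (T : ℝ → ℝ → E →L[ℝ] E) : Prop :=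
  ∀ s, 0 ≤ s → T s s = ContinuousLinearMap.id ℝ E ∧
    ∀ t, 0 ≤ t → HasDerivWithinAt (fun τ => T τ s) ((A t).comp (T t s)) (Ici 0) t

/-- `x' = A(t) x` has a nonuniform exponential dichotomy on `[0, ∞)` with `P(t) ≡ I`: its evolution
operator satisfies `‖T(t,s)‖ ≤ K exp (-γ (t - s) + ε s)` for `t ≥ s ≥ 0`, with `K ≥ 1` and
`0 ≤ ε < γ`. -/
def NonuniformContraction (A : ℝ → E →L[ℝ] E) : Prop :=
  ∃ T : ℝ → ℝ → E →L[ℝ] E, IsEvolution A T ∧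
    ∃ K γ ε : ℝ, 1 ≤ K ∧ 0 ≤ ε ∧ ε < γ ∧
      ∀ s t, 0 ≤ s → s ≤ t → ‖T t s‖ ≤ K * Real.exp (-γ * (t - s) + ε * s)

/-- `x` is a solution of `x' = f(t, x)` on `[t₀, ∞)`. -/
def IsForwardSolution (f : ℝ → E → E) (t₀ : ℝ) (x : ℝ → E) : Prop :=
  ∀ t, t₀ ≤ t → HasDerivWithinAt x (f t (x t)) (Ici t₀) t

/-- The origin is globally nonuniformly asymptotically stable for `x' = f(t, x)`: for every
`t₀ ≥ 0` it is stable with `δ = δ(t₀, η)`, and every solution on `[t₀, ∞)` tends to `0`. -/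
def GloballyNonuniformlyAsymptoticallyStable (f : ℝ → E → E) : Prop :=
  ∀ t₀, 0 ≤ t₀ →
    (∀ η, 0 < η → ∃ δ, 0 < δ ∧ ∀ x : ℝ → E, IsForwardSolution f t₀ x → ‖x t₀‖ < δ →
      ∀ t, t₀ ≤ t → ‖x t‖ < η) ∧
    (∀ x : ℝ → E, IsForwardSolution f t₀ x → Filter.Tendsto x Filter.atTop (nhds 0))

end Pool.Agent.H365Z.MY
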