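import Pool.Agent.H365Z.MY.Defs
import Pool.Agent.H365Z.MY.Avg

set_option autoImplicit false

namespace Pool.Agent.H365Z.MY

open Set Filter Topology

variable {E : Type*} [NormedAddCommGroup E] [NormedSpace ℝ E]

/-- the standing assumptions on the vector field and its Jacobian -/
structure Data (f : ℝ → E → E) (J : ℝ → E → E →L[ℝ] E) : Prop where
  hf : ContinuousOn (fun p : ℝ × E => f p.1 p.2) (Ici 0 ×ˢ univ)
  hd : ∀ t, 0 ≤ t → ∀ z, HasFDerivAt (f t) (J t z) z
  hJ : ContinuousOn (fun p : ℝ × E => J p.1 p.2) (Ici 0 ×ˢ univ)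
  h0 : ∀ t, 0 ≤ t → f t 0 = 0

variable {f : ℝ → E → E} {J : ℝ → E → E →L[ℝ] E}

lemma Data.comp_J (D : Data f J) {X : Type*} [TopologicalSpace X] {c : X → ℝ} {z : X → E}
    (hc : Continuous c) (hz : Continuous z) (h : ∀ q, 0 ≤ c q) :
    Continuous fun q => J (c q) (z q) :=
  D.hJ.comp_continuous (hc.prodMk hz) fun q => ⟨h q, mem_univ _⟩

lemma Data.comp_f (D : Data f J) {X : Type*} [TopologicalSpace X] {c : X → ℝ} {z : X → E}
    (hc : Continuous c) (hz : Continuous z) (h : ∀ q, 0 ≤ c q) :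
    Continuous fun q => f (c q) (z q) :=
  D.hf.comp_continuous (hc.prodMk hz) fun q => ⟨h q, mem_univ _⟩

lemma Data.mean [CompleteSpace E] (D : Data f J) {t : ℝ} (ht : 0 ≤ t) (z : E) :
    ∫ s in (0 : ℝ)..1, J t (s • z) z = f t z := by
  have hc : Continuous fun s : ℝ => J t (s • z) z :=
    (D.comp_J (c := fun _ : ℝ => t) continuous_const (by fun_prop) fun _ => ht).clm_apply
      continuous_const
  have := intervalIntegral.integral_eq_sub_of_hasDerivAt (a := 0) (b := 1)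
    (f := fun s : ℝ => f t (s • z)) (f' := fun s : ℝ => J t (s • z) z)
    (fun s _ => by
      have h1 : HasDerivAt (fun s : ℝ => s • z) z s := by
        simpa using (hasDerivAt_id s).smul_const z
      exact (D.hd t ht (s • z)).comp_hasDerivAt s h1)
    (hc.intervalIntegrable _ _)
  simpa [D.h0 t ht] using this

lemma IsForwardSolution.continuousOn {t₀ : ℝ} {x : ℝ → E} (hx : IsForwardSolution f t₀ x) :
    ContinuousOn x (Ici t₀) := fun t ht => (hx t ht).continuousWithinAt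

lemma shadow [CompleteSpace E] (D : Data f J) {t₀ : ℝ} (ht₀ : 0 ≤ t₀) {x : ℝ → E}
    (hx : IsForwardSolution f t₀ x) {a b : ℝ} (ha : t₀ ≤ a) (hab : a < b) {ρ : ℝ} (hρ : 0 < ρ) :
    ∃ ρ', 0 < ρ' ∧ ∃ w : ℝ → E, ContinuousOn w (Icc a b) ∧ w a = 0 ∧ w b = 0 ∧
      ∀ y : ℝ → E, (∀ t ∈ Icc a b, HasDerivWithinAt y (J t (w t) (y t)) (Ici 0) t) →
        ‖y b - x b‖ ≤ ρ' → ‖y a - x a‖ ≤ ρ := by
  have hcx : Continuous fun t => x (max t a) :=
    hx.continuousOn.comp_continuous (by fun_prop) fun t => ha.trans (le_max_right _ _)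
  have hc0 : ∀ t, 0 ≤ max t a := fun t => ht₀.trans (ha.trans (le_max_right _ _))
  have hA : Continuous fun q : ℝ × ℝ => J (max q.1 a) (q.2 • x (max q.1 a)) :=
    D.comp_J (by fun_prop) (continuous_snd.smul (hcx.comp continuous_fst)) fun q => hc0 _
  set G : ℝ × ℝ → E := fun q =>
    J (max q.1 a) (q.2 • x (max q.1 a)) (x (max q.1 a)) - f (max q.1 a) (x (max q.1 a)) with hG
  have hGc : Continuous G :=
    (hA.clm_apply (hcx.comp continuous_fst)).sub
      (D.comp_f (by fun_prop) (hcx.comp continuous_fst) fun q => hc0 _)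
  have hG0 : ∀ t ∈ Icc a b, ∫ s in (0 : ℝ)..1, G (t, s) = 0 := by
    intro t _
    have hc : Continuous fun s : ℝ => J (max t a) (s • x (max t a)) (x (max t a)) :=
      (hA.comp (Continuous.prodMk_right t)).clm_apply continuous_const
    simp only [hG]
    rw [intervalIntegral.integral_sub (hc.intervalIntegrable _ _)
      (continuous_const.intervalIntegrable _ _), D.mean (hc0 t)]
    simp
  have hK : IsCompact (Icc a b ×ˢ Icc (0 : ℝ) 1) := isCompact_Icc.prod isCompact_Icc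
  obtain ⟨M₀, hM₀⟩ := hK.exists_bound_of_continuousOn hA.continuousOn
  set M := max M₀ 1 with hM
  have hM1 : 0 < M := lt_of_lt_of_le one_pos (le_max_right _ _)
  set θ := ρ / (3 * Real.exp (M * (b - a))) with hθ
  have hθ0 : 0 < θ := by positivity
  obtain ⟨σ, hσc, hσm, hσa, hσb, hσ⟩ := avg G hGc hab hG0 hθ0
  refine ⟨θ, hθ0, fun t => σ t • x t, ?_, by simp [hσa], by simp [hσb], fun y hy hyb => ?_⟩
  · exact hσc.continuousOn.smul (hx.continuousOn.mono fun t ht => ha.trans ht.1)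
  have hh : Continuous fun τ => G (τ, σ τ) := hGc.comp (continuous_id.prodMk hσc)
  set F : ℝ → E := fun t => ∫ τ in a..t, G (τ, σ τ) with hF
  have hFd : ∀ t, HasDerivAt F (G (t, σ t)) t := fun t =>
    intervalIntegral.integral_hasDerivAt_right (hh.intervalIntegrable _ _)
      (hh.stronglyMeasurableAtFilter _ _) hh.continuousAt
  have hFc : Continuous F := continuous_iff_continuousAt.2 fun t => (hFd t).continuousAt
  set z : ℝ → E := fun t => y t - x t - F t with hz
  have hzc : ContinuousOn z (Icc a b) := by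
    refine ContinuousOn.sub (ContinuousOn.sub ?_ ?_) hFc.continuousOn
    · exact fun t ht => (hy t ht).continuousWithinAt.mono fun τ hτ =>
        ht₀.trans (ha.trans hτ.1)
    · exact hx.continuousOn.mono fun t ht => ha.trans ht.1
  have hzd : ∀ t ∈ Ioc a b, HasDerivAt z (J t (σ t • x t) (z t + F t)) t := by
    intro t ht
    have h1 : HasDerivAt y (J t (σ t • x t) (y t)) t :=
      (hy t ⟨ht.1.le, ht.2⟩).hasDerivAt (Ici_mem_nhds (lt_of_le_of_lt (ht₀.trans ha) ht.1))
    have h2 : HasDerivAt x (f t (x t)) t :=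
      (hx t (ha.trans ht.1.le)).hasDerivAt (Ici_mem_nhds (lt_of_le_of_lt ha ht.1))
    have h3 := (h1.sub h2).sub (hFd t)
    have e : J t (σ t • x t) (z t + F t) =
        J t (σ t • x t) (y t) - f t (x t) - G (t, σ t) := by
      simp only [hG, hz, max_eq_left ht.1.le, sub_add_cancel, map_sub]
      abel
    rw [e]
    exact h3
  have key := norm_le_gronwallBound_of_norm_deriv_right_le (f := fun r => z (b - r))
    (f' := fun r => -(J (b - r) (σ (b - r) • x (b - r)) (z (b - r) + F (b - r))))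
    (δ := 2 * θ) (K := M) (ε := M * θ) (a := 0) (b := b - a)
    (hzc.comp (by fun_prop) fun r hr => ⟨by linarith [hr.2], by linarith [hr.1]⟩)
    (fun r hr => by
      have h1 := hzd (b - r) ⟨by linarith [hr.2], by linarith [hr.1]⟩
      have h2 : HasDerivAt (fun r : ℝ => b - r) (-1) r := by
        simpa using (hasDerivAt_id r).const_sub b
      have h3 := h1.scomp r h2
      rw [neg_one_smul] at h3
      exact h3.hasDerivWithinAt)
    (by
      simp only [sub_zero, hz]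
      have := hσ b ⟨hab.le, le_rfl⟩
      exact (norm_sub_le _ _).trans (by linarith))
    (fun r hr => by
      have hm : b - r ∈ Icc a b := ⟨by linarith [hr.2], by linarith [hr.1]⟩
      have h1 := hM₀ (b - r, σ (b - r)) ⟨hm, hσm _⟩
      simp only [max_eq_left hm.1] at h1
      have h2 := hσ (b - r) hm
      rw [norm_neg]
      refine (ContinuousLinearMap.le_opNorm _ _).trans ?_
      have h3 : ‖z (b - r) + F (b - r)‖ ≤ ‖z (b - r)‖ + θ :=
        (norm_add_le _ _).trans (by linarith)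
      calc _ ≤ M * (‖z (b - r)‖ + θ) :=
            mul_le_mul (h1.trans (le_max_left _ _)) h3 (norm_nonneg _) hM1.le
        _ = _ := by ring)
    (b - a) ⟨by linarith, le_rfl⟩
  rw [gronwallBound_of_K_ne_0 hM1.ne'] at key
  simp only [sub_sub_cancel, sub_zero, hz, hF, intervalIntegral.integral_same] at key
  have e1 : M * θ / M = θ := by field_simp
  rw [e1] at key
  have e2 : θ * (3 * Real.exp (M * (b - a))) = ρ := by rw [hθ]; field_simp
  nlinarith

lemma contraction_sol {A : ℝ → E →L[ℝ] E} (hA : ContinuousOn A (Ici 0))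
    (h : NonuniformContraction A) :
    ∃ K γ ε : ℝ, 1 ≤ K ∧ 0 ≤ ε ∧ ε < γ ∧ ∀ r, 0 ≤ r → ∀ v : E, ∃ y : ℝ → E, y r = v ∧
      (∀ t, 0 ≤ t → HasDerivWithinAt y (A t (y t)) (Ici 0) t) ∧
      ∀ s t, 0 ≤ s → s ≤ t → ‖y t‖ ≤ K * Real.exp (-γ * (t - s) + ε * s) * ‖y s‖ := by
  obtain ⟨T, hT, K, γ, ε, hK, hε, hγ, hb⟩ := h
  have sol : ∀ r, 0 ≤ r → ∀ v : E, ∀ t, 0 ≤ t →
      HasDerivWithinAt (fun τ => T τ r v) (A t (T t r v)) (Ici 0) t := by
    intro r hr v t ht
    have := ((hT r hr).2 t ht).clm_apply (hasDerivWithinAt_const t (Ici 0) v)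
    simpa using this
  refine ⟨K, γ, ε, hK, hε, hγ, fun r hr v => ⟨fun τ => T τ r v, by simp [(hT r hr).1],
    sol r hr v, fun s t hs hst => ?_⟩⟩
  obtain ⟨M, hM⟩ := (isCompact_Icc (a := s) (b := t)).exists_bound_of_continuousOn
    (hA.mono fun τ hτ => hs.trans hτ.1)
  have hd : ∀ τ, 0 ≤ τ → HasDerivWithinAt (fun τ => T τ r v - T τ s (T s r v))
      (A τ (T τ r v - T τ s (T s r v))) (Ici 0) τ := by
    intro τ hτ
    rw [map_sub]
    exact (sol r hr v τ hτ).sub (sol s hs _ τ hτ)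
  have := eq_zero_of_abs_deriv_le_mul_abs_self_of_eq_zero_right
    (f := fun τ => T τ r v - T τ s (T s r v))
    (f' := fun τ => A τ (T τ r v - T τ s (T s r v))) (K := M) (a := s) (b := t)
    (fun τ hτ => (hd τ (hs.trans hτ.1)).continuousWithinAt.mono fun u hu => hs.trans hu.1)
    (fun τ hτ => (hd τ (hs.trans hτ.1)).mono fun u hu => (hs.trans hτ.1).trans hu)
    (by simp [(hT s hs).1])
    (fun τ hτ => (ContinuousLinearMap.le_opNorm _ _).trans
      (mul_le_mul_of_nonneg_right (hM τ ⟨hτ.1, hτ.2.le⟩) (norm_nonneg _)))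
    t ⟨hst, le_rfl⟩
  have e : T t r v = T t s (T s r v) := sub_eq_zero.1 this
  show ‖T t r v‖ ≤ _ * ‖T s r v‖
  rw [e]
  exact (ContinuousLinearMap.le_opNorm _ _).trans
    (mul_le_mul_of_nonneg_right (hb s t hs hst) (norm_nonneg _))

lemma Data.contJ (D : Data f J) {ω : ℝ → E} (hω : Continuous ω) :
    ContinuousOn (fun t => J t (ω t)) (Ici 0) :=
  D.hJ.comp (continuous_id.prodMk hω).continuousOn fun _ ht => ⟨ht, mem_univ _⟩

lemma seq_facts {a : ℕ → ℝ} {t₀ : ℝ} (h0 : a 0 = t₀) (h : ∀ n, a n + 1 ≤ a (n + 1)) :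
    Monotone a ∧ ∀ n : ℕ, t₀ + n ≤ a n := by
  refine ⟨monotone_nat_of_le_succ fun n => by linarith [h n], fun n => ?_⟩
  induction n with
  | zero => simp [h0]
  | succ n ih => push_cast; linarith [h n]

theorem attract [CompleteSpace E] (D : Data f J)
    (G3 : ∀ ω : ℝ → E, Continuous ω → NonuniformContraction fun t => J t (ω t))
    {t₀ : ℝ} (ht₀ : 0 ≤ t₀) {x : ℝ → E} (hx : IsForwardSolution f t₀ x) :
    Tendsto x atTop (𝓝 0) := by
  by_contra hcon
  rw [NormedAddGroup.tendsto_nhds_zero] at hcon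
  push Not at hcon
  obtain ⟨η, hη, hfr⟩ := hcon
  obtain ⟨a, ρ, ω, hω, a0, ρ0, hstep⟩ := paste (E := E)
    (fun _ a ρ b ρ' w => η ≤ ‖x b‖ ∧ 0 < ρ' ∧
      ∀ y : ℝ → E, (∀ t ∈ Icc a b, HasDerivWithinAt y (J t (w t) (y t)) (Ici 0) t) →
        ‖y b - x b‖ ≤ ρ' → ‖y a - x a‖ ≤ ρ) t₀ (by
      intro n a ρ ha hρ
      obtain ⟨b, hb1, hb2⟩ := (hfr.and_eventually (eventually_ge_atTop (a + 1))).exists
      obtain ⟨ρ', h1, w, h2, h3, h4, h5⟩ := shadow D ht₀ hx ha (show a < b by linarith) hρ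
      exact ⟨b, ρ', w, hb2, h1, h2, h3, h4, hb1, h1, h5⟩)
  obtain ⟨amono, alin⟩ := seq_facts a0 fun n => (hstep n).1
  have a_nonneg : ∀ n, 0 ≤ a n := fun n => by
    have := alin n
    have : (0 : ℝ) ≤ n := Nat.cast_nonneg n
    linarith
  obtain ⟨K, γ, ε, hK, hε, hγ, hsol⟩ := contraction_sol (D.contJ hω) (G3 ω hω)
  have main : ∀ N : ℕ, η ≤ K * Real.exp (-γ * (a (N + 1) - t₀) + ε * t₀) * (‖x t₀‖ + 1) := by
    intro N
    obtain ⟨y, hy0, hy1, hy2⟩ := hsol (a (N + 1)) (a_nonneg _) (x (a (N + 1)))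
    have back : ∀ k n : ℕ, n + k = N + 1 → (0 < n ∨ 0 < k) → ‖y (a n) - x (a n)‖ ≤ ρ n := by
      intro k
      induction k with
      | zero =>
        intro n hn _
        obtain rfl : n = N + 1 := by simpa using hn
        obtain ⟨_, w, _, _, h, _⟩ := hstep N
        rw [hy0, sub_self, norm_zero]
        exact h.le
      | succ k ih =>
        intro n hn _
        obtain ⟨_, w, hw, _, _, h⟩ := hstep n
        refine h y (fun t ht => ?_) (ih (n + 1) (by omega) (Or.inl (Nat.succ_pos n)))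
        rw [← hw t ht]
        exact hy1 t ((a_nonneg n).trans ht.1)
    have b0 := back (N + 1) 0 (by simp) (Or.inr (Nat.succ_pos N))
    rw [a0, ρ0] at b0
    have b1 : ‖y t₀‖ ≤ ‖x t₀‖ + 1 := by
      have := norm_add_le (x t₀) (y t₀ - x t₀)
      rw [add_sub_cancel] at this
      linarith
    have b2 := hy2 t₀ (a (N + 1)) ht₀ (by rw [← a0]; exact amono (Nat.zero_le _))
    obtain ⟨_, w, _, h, _, _⟩ := hstep N
    rw [hy0] at b2
    exact h.trans (b2.trans (mul_le_mul_of_nonneg_left b1 (by positivity)))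
  have lim : Tendsto (fun N : ℕ => K * Real.exp (-γ * (a (N + 1) - t₀) + ε * t₀) * (‖x t₀‖ + 1))
      atTop (𝓝 (K * 0 * (‖x t₀‖ + 1))) := by
    refine Tendsto.mul_const _ (Tendsto.const_mul _ (Real.tendsto_exp_atBot.comp ?_))
    refine tendsto_atBot_add_const_right _ _ ?_
    refine Tendsto.const_mul_atTop_of_neg (by linarith) ?_
    refine tendsto_atTop_mono (f := fun N : ℕ => (N : ℝ)) (fun N => ?_) tendsto_natCast_atTop_atTop
    have := alin (N + 1)
    push_cast at this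
    linarith
  have := ge_of_tendsto' lim main
  simp at this
  linarith

lemma small_sol [FiniteDimensional ℝ E] (D : Data f J) {t₀ : ℝ} (ht₀ : 0 ≤ t₀) (S : ℝ) {α : ℝ}
    (hα : 0 < α) : ∃ δ, 0 < δ ∧ ∀ x : ℝ → E, IsForwardSolution f t₀ x → ‖x t₀‖ < δ →
      ∀ t ∈ Icc t₀ S, ‖x t‖ < α := by
  have : CompleteSpace E := FiniteDimensional.complete ℝ E
  have : ProperSpace E := FiniteDimensional.proper_real E
  have hK : IsCompact (Icc t₀ S ×ˢ Metric.closedBall (0 : E) 1) :=
    isCompact_Icc.prod (isCompact_closedBall _ _)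
  obtain ⟨M₀, hM₀⟩ := hK.exists_bound_of_continuousOn
    (D.hJ.mono fun q hq => ⟨ht₀.trans hq.1.1, mem_univ _⟩)
  set M := max M₀ 0 with hM
  have hM0 : 0 ≤ M := le_max_right _ _
  have hf : ∀ t ∈ Icc t₀ S, ∀ z : E, ‖z‖ ≤ 1 → ‖f t z‖ ≤ M * ‖z‖ := by
    intro t ht z hz
    rw [← D.mean (ht₀.trans ht.1) z]
    have := intervalIntegral.norm_integral_le_of_norm_le_const (a := 0) (b := 1) (C := M * ‖z‖)
      (f := fun s : ℝ => J t (s • z) z) (by
        intro s hs
        rw [uIoc_of_le zero_le_one] at hs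
        refine (ContinuousLinearMap.le_opNorm _ _).trans
          (mul_le_mul_of_nonneg_right ((hM₀ (t, s • z) ⟨ht, ?_⟩).trans (le_max_left _ _))
            (norm_nonneg _))
        rw [mem_closedBall_zero_iff, norm_smul, Real.norm_of_nonneg hs.1.le]
        nlinarith [hs.1, hs.2, norm_nonneg z])
    simpa using this
  set δ := min α 1 / 2 / Real.exp ((M + 1) * (S - t₀)) with hδ
  have hmin : 0 < min α 1 := lt_min hα one_pos
  have hδ0 : 0 < δ := by positivity
  refine ⟨δ, hδ0, fun x hx hx0 t ht => ?_⟩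
  have hB : ∀ τ ∈ Icc t₀ S, δ * Real.exp ((M + 1) * (τ - t₀)) ≤ min α 1 / 2 := by
    intro τ hτ
    rw [hδ, div_mul_eq_mul_div, div_le_iff₀ (Real.exp_pos _)]
    refine mul_le_mul_of_nonneg_left (Real.exp_le_exp.2 ?_) (by positivity)
    exact mul_le_mul_of_nonneg_left (by linarith [hτ.2]) (by linarith)
  have key := image_norm_le_of_norm_deriv_right_lt_deriv_boundary (f := x)
    (f' := fun τ => f τ (x τ)) (a := t₀) (b := S)
    (hx.continuousOn.mono fun τ hτ => hτ.1)
    (fun τ hτ => (hx τ hτ.1).mono fun u hu => hτ.1.trans hu)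
    (B := fun τ => δ * Real.exp ((M + 1) * (τ - t₀)))
    (B' := fun τ => δ * (Real.exp ((M + 1) * (τ - t₀)) * (M + 1)))
    (by simpa using hx0.le)
    (fun τ => by
      have h1 : HasDerivAt (fun τ : ℝ => (M + 1) * (τ - t₀)) (M + 1) τ := by
        simpa using ((hasDerivAt_id τ).sub_const t₀).const_mul (M + 1)
      exact h1.exp.const_mul δ)
    (fun τ hτ h => by
      have hm : τ ∈ Icc t₀ S := ⟨hτ.1, hτ.2.le⟩
      have h1 := hB τ hm
      have h2 : ‖x τ‖ ≤ 1 := by
        rw [h]; linarith [min_le_right α 1]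
      have h3 := hf τ hm (x τ) h2
      rw [h] at h3
      have h4 : 0 < δ * Real.exp ((M + 1) * (τ - t₀)) := by positivity
      nlinarith)
    ht
  have := hB t ht
  linarith [min_le_left α 1]

theorem stable [FiniteDimensional ℝ E] (D : Data f J)
    (G3 : ∀ ω : ℝ → E, Continuous ω → NonuniformContraction fun t => J t (ω t))
    {t₀ : ℝ} (ht₀ : 0 ≤ t₀) {η : ℝ} (hη : 0 < η) :
    ∃ δ, 0 < δ ∧ ∀ x : ℝ → E, IsForwardSolution f t₀ x → ‖x t₀‖ < δ →
      ∀ t, t₀ ≤ t → ‖x t‖ < η := by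
  have : CompleteSpace E := FiniteDimensional.complete ℝ E
  by_contra hcon
  push Not at hcon
  obtain ⟨a, ρ, ω, hω, a0, ρ0, hstep⟩ := paste (E := E)
    (fun n a _ b _ w => ∃ v : E, η ≤ ‖v‖ ∧
      ∀ y : ℝ → E, (∀ t ∈ Icc a b, HasDerivWithinAt y (J t (w t) (y t)) (Ici 0) t) →
        y b = v → ‖y a‖ ≤ 2 * (Real.exp (-(n * a)) / (n + 1))) t₀ (by
      intro n a ρ ha hρ
      have hα : 0 < Real.exp (-(n * a)) / (n + 1) := by positivity
      obtain ⟨δ, hδ, hs⟩ := small_sol D ht₀ (a + 1) (lt_min hα hη)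
      obtain ⟨x, hx, hx0, b, hb, hxb⟩ := hcon δ hδ
      have hab : a + 1 ≤ b := by
        by_contra hlt
        have := hs x hx hx0 b ⟨hb, by linarith⟩
        linarith [min_le_right (Real.exp (-(n * a)) / (n + 1)) η]
      obtain ⟨ρ', h1, w, h2, h3, h4, h5⟩ := shadow D ht₀ hx ha (show a < b by linarith) hα
      refine ⟨b, 1, w, hab, one_pos, h2, h3, h4, x b, hxb, fun y hy hyb => ?_⟩
      have h6 := h5 y hy (by rw [hyb, sub_self, norm_zero]; exact h1.le)
      have h7 := hs x hx hx0 a ⟨ha, by linarith⟩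
      have := norm_add_le (x a) (y a - x a)
      rw [add_sub_cancel] at this
      linarith [min_le_left (Real.exp (-(n * a)) / (n + 1)) η])
  obtain ⟨amono, alin⟩ := seq_facts a0 fun n => (hstep n).1
  have a_nonneg : ∀ n, 0 ≤ a n := fun n => by
    have := alin n
    have : (0 : ℝ) ≤ n := Nat.cast_nonneg n
    linarith
  obtain ⟨K, γ, ε, hK, hε, hγ, hsol⟩ := contraction_sol (D.contJ hω) (G3 ω hω)
  obtain ⟨n, hn⟩ := exists_nat_gt (max ε (2 * K / η))
  have hn1 : ε < n := (le_max_left _ _).trans_lt hn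
  have hn2 : 2 * K / η < n := (le_max_right _ _).trans_lt hn
  obtain ⟨hlt, w, hw, v, hv, h⟩ := hstep n
  obtain ⟨y, hy0, hy1, hy2⟩ := hsol (a (n + 1)) (a_nonneg _) v
  have h1 := h y (fun t ht => by
    rw [← hw t ht]
    exact hy1 t ((a_nonneg n).trans ht.1)) hy0
  have h2 := hy2 (a n) (a (n + 1)) (a_nonneg n) (by linarith)
  rw [hy0] at h2
  have h3 : Real.exp (-γ * (a (n + 1) - a n) + ε * a n) * Real.exp (-(n * a n)) ≤ 1 := by
    rw [← Real.exp_add]
    refine Real.exp_le_one_iff.2 ?_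
    nlinarith [a_nonneg n]
  have h4 : η ≤ K * Real.exp (-γ * (a (n + 1) - a n) + ε * a n) *
      (2 * (Real.exp (-(n * a n)) / (n + 1))) :=
    hv.trans (h2.trans (mul_le_mul_of_nonneg_left h1 (by positivity)))
  have h5 : K * Real.exp (-γ * (a (n + 1) - a n) + ε * a n) *
      (2 * (Real.exp (-(n * a n)) / (n + 1))) = 2 * K / (n + 1) *
      (Real.exp (-γ * (a (n + 1) - a n) + ε * a n) * Real.exp (-(n * a n))) := by ring
  have h6 : η ≤ 2 * K / (n + 1) := by
    rw [h5] at h4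
    exact h4.trans (mul_le_of_le_one_right (by positivity) h3)
  rw [le_div_iff₀ (by positivity)] at h6
  rw [div_lt_iff₀ hη] at hn2
  nlinarith

theorem main [FiniteDimensional ℝ E] (f : ℝ → E → E)
    (hf : ContinuousOn (fun p : ℝ × E => f p.1 p.2) (Ici 0 ×ˢ univ))
    (hd : ∀ t, 0 ≤ t → Differentiable ℝ (f t))
    (hJ : ContinuousOn (fun p : ℝ × E => fderiv ℝ (f p.1) p.2) (Ici 0 ×ˢ univ))
    (h0 : ∀ t, 0 ≤ t → f t 0 = 0)
    (G3 : ∀ ω : ℝ → E, Continuous ω → NonuniformContraction fun t => fderiv ℝ (f t) (ω t)) :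
    GloballyNonuniformlyAsymptoticallyStable f := by
  have : CompleteSpace E := FiniteDimensional.complete ℝ E
  have D : Data f fun t z => fderiv ℝ (f t) z :=
    ⟨hf, fun t ht z => (hd t ht z).hasFDerivAt, hJ, h0⟩
  exact fun t₀ ht₀ => ⟨fun η hη => stable D G3 ht₀ hη, fun x hx => attract D G3 ht₀ hx⟩

end Pool.Agent.H365Z.MY
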